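import Mathlib
import Pool.Agent.H520R2.NMDefs
import Pool.Agent.H679R2.M1.Defs
import Pool.Agent.H679R2.M1.Main

/-!
# `p-CLIQUE` is not reducible to `p-log-SAT(Γ_{1,d})` by circuits with few non-monotone gates

`M[1]` is the closure under fpt-reductions of the problems `p-log-SAT(Γ_{1,d})`: satisfiability of
formulas of size `m` with at most `d` literals per clause, parameterized by `⌈v / log m⌉`, where `v`
is the number of variables.  An fpt-reduction of `p-CLIQUE` to this problem maps a graph with `n`
vertices and a number `k` to a formula with `v ≤ g k * log m` variables, where `m ≤ f k * n ^ c`.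

We consider reductions that are computed by circuits: the circuit gets the graph and computes for
each possible clause a bit that says whether the clause belongs to the formula.  The circuit has
AND and OR gates of fan-in two, and arbitrary further gates, the `i`-th of them with `w i` input
wires, for example NOT gates (`w i = 1`).  The reduction may also be a truth-table reduction: it
asks `q` such questions in parallel, and it evaluates the `q` answers by an arbitrary function.

Theorem.  Let `f`, `g`, `s` be arbitrary functions with `s k ≥ k`, let `c` and `d` be numbers, and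
let `0 ≤ γ < 2`.  For all large `k` there is `α > 0` such that for all large `n` no such
reductions with at most `f k * n ^ c` gates and with `(q + 1) * ∏ (w i + 1) ≤ n ^ γ` are right,
not even if they are randomised and may err with probability `1 / 2 - n ^ (-α)`, and if only graphs
with a clique of `s k` vertices and graphs without clique of `k` vertices are allowed.  There is
one distribution of such graphs (uniform on a finite family) that is hard for all of them.

So `W[1]` is not contained in `M[1]` if the classes are taken with respect to reductions of this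
kind, with `(1 - ε) * log₂ N` NOT gates, where `N = n * (n - 1) / 2` is the number of input bits.
-/

namespace Pool.Agent.Results.MP_ddf912_lc.FewNegations

open Filter Finset Pool.Agent.H520R2.NM Pool.Agent.H679R2.M1

theorem result (f g s : ℕ → ℕ) (hs : ∀ k, k ≤ s k) (c d : ℕ) (γ : ℝ) (hγ0 : 0 ≤ γ)
    (hγ : γ < 2) :
    ∀ᶠ k : ℕ in atTop, ∃ α : ℝ, 0 < α ∧ ∀ᶠ n : ℕ in atTop,
      -- one distribution of graphs is hard for all reductions
      (∃ (Λ : Type) (_ : Fintype Λ) (_ : Nonempty Λ) (x : Λ → Sym2 (Fin n) → Bool),
        (∀ l, Promise (s k) k (x l)) ∧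
        ∀ (v q N : ℕ) (R : Reduction n v d q N),
          v ≤ g k * (Nat.log 2 (f k * n ^ c) + 1) →
          (((q + 1) * (R.C.fanins.map (· + 1)).prod : ℕ) : ℝ) ≤ (n : ℝ) ^ γ →
          R.C.size + R.C.fanins.sum ≤ f k * n ^ c →
          (Set.ncard {l | Right (s k) k (x l) (R.answer (x l))} : ℝ) <
            (1 / 2 + (n : ℝ) ^ (-α)) * Fintype.card Λ) ∧
      -- randomised reductions err with probability more than `1 / 2 - n ^ (-α)` on some graph
      ∀ (Ω : Type) [Fintype Ω] (w : Ω → ℝ), (∀ r, 0 ≤ w r) → ∑ r, w r = 1 →
        ∀ (v q N : Ω → ℕ) (R : ∀ r, Reduction n (v r) d (q r) (N r)),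
          (∀ r, v r ≤ g k * (Nat.log 2 (f k * n ^ c) + 1)) →
          (∀ r, (((q r + 1) * ((R r).C.fanins.map (· + 1)).prod : ℕ) : ℝ) ≤ (n : ℝ) ^ γ) →
          (∀ r, (R r).C.size + (R r).C.fanins.sum ≤ f k * n ^ c) →
          ∃ x : Sym2 (Fin n) → Bool, Promise (s k) k x ∧
            ∀ Q : Finset Ω, (∀ r ∈ Q, Right (s k) k x ((R r).answer x)) →
              ∑ r ∈ Q, w r < 1 / 2 + (n : ℝ) ^ (-α) :=
  no_reduction f g s hs c d γ hγ0 hγ

end Pool.Agent.Results.MP_ddf912_lc.FewNegations
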