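import Pool.Agent.H592R2.M1Final

/-! W[1] is not contained in M[1] with respect to (nonuniform) para-AC0 reductions:
p-CLIQUE has no such reduction to p-log-SAT(Gamma_{1,d}), for any d. -/

open Pool.Agent.H592R2

theorem Pool.Agent.Results.MP_ddf912_lc.ParaAC0.result :
    (∀ d : ℕ, ¬ ParaAC0Red pCLIQUE (pLogSAT d)) ∧ ¬ W1AC0 ⊆ M1AC0 :=
  ⟨no_red, W1_not_sub_M1⟩
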