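import Pool.Agent.H550R2.LP.CliqUp

set_option autoImplicit false

/-! Symmetric reductions by linear programs: `W[1]` is not contained in `M[1]` in this model. -/

namespace Pool.Agent.Results.MP_ddf912_lc.SymmetricReductions

open Finset Pool.Agent.H550R2.Lin
open Pool.Agent.H30R2.NS (Clause Sat)

theorem result :
    -- compression of the clique problem to any language
    (∀ k b : ℕ, 9 ≤ k → k ≤ b → ∀ (O : Type) [Fintype O],
      Fintype.card O * 2 ^ (k ^ 2 + 3) ≤ 2 ^ b →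
      ∀ (F : RRed (Ver k b × Ver k b) O (Fin k × Fin b) pV) (L : Set (O → Bool)),
        F.CliqueOK L →
        (2 : ℝ) ^ ((k : ℝ) * b / 16) ≤ 2 ^ (k ^ 2 + 3) * (Fintype.card O * F.size)) ∧
    -- reductions to `d`-CNFs with `g k * log n` variables
    (∀ (c d : ℕ) (f g : ℕ → ℕ) (k : ℕ), 16 * c < k → 9 ≤ k →
      ∃ B, ∀ b, B ≤ b → ∀ (Y : Type) [Fintype Y], Fintype.card Y ≤ g k * b →
        ∀ F : RCRed k b d Y, F.size ≤ f k * ((k * 2 ^ b : ℕ) : ℝ) ^ c → ¬ F.OK) ∧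
    -- more variables and wider clauses
    (∀ (c : ℕ) (f : ℕ → ℕ) (k : ℕ), 16 * (c + 1) < k →
      ∃ B, ∀ b, B ≤ b → ∀ (d : ℕ) (Y : Type) [Fintype Y],
        (2 * Fintype.card Y) ^ d * 2 ^ (k ^ 2 + 3) ≤ 2 ^ b →
        ∀ F : RCRed k b d Y, F.size ≤ f k * ((k * 2 ^ b : ℕ) : ℝ) ^ c → ¬ F.OK) ∧
    -- a reduction to CNFs with `k * log n` variables and clauses of width `2 * log n`
    (∀ k b : ℕ, 1 ≤ b → ∃ F : CRed k b (2 * b) (Fin k × Fin b), F.size = 0 ∧
      ∀ G : SimpleGraph (Ver k b), Partite G → (Sat (F.cnf G) ↔ HasClq G)) := by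
  refine ⟨?_, w1_m1, w1_wide, ?_⟩
  · intro k b hk hb O _ hO F L hF
    exact clq_bound hk hb hO F L hF
  · intro k b hb
    exact ⟨upRed k b, upRed_size, upRed_ok hb⟩

end Pool.Agent.Results.MP_ddf912_lc.SymmetricReductions
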